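import Pool.Agent.Y930.SM.Main

set_option autoImplicit false

/-!
# Monochromatic sums, products and polynomial shifts in several variables

Stronger form of the affirmative answer to Q1 of MP_556fef_co: any number of elements, all their
products and sums, shifts by polynomials in several variables, all fields of characteristic zero.
Q1 is the case `F = ℚ`, `m = 2`, `k = 0`, `f` a polynomial in `X 0` with integer coefficients;
`x = x 1`, `y = x 0`.
-/

namespace Pool.Agent.Results.MP_556fef_co.SeveralVariables

open Finset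

/-- Let `F` be a field of characteristic zero, `c` a colouring of `F` with finitely many colours,
`Z` a finite subset of `F`, `m` a natural number and `P` a finite set of polynomials over `F` in
the variables `X 0, X 1, …`.  There are `x 0, x 1, …` in `F`, the first `m` of them distinct, and a
monochromatic set `S` without elements of `Z ∪ {0}`, which contains

* all products `∏ i ∈ I, x i` and all sums `∑ i ∈ I, x i` with `∅ ≠ I ⊆ {0, …, m-1}`,
* all `(∏ j ∈ J, x j) * x i + f (x 0, …, x (i-1), 0, 0, …)` with `f ∈ P`, `i < m`, `k ≤ i`,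
  `J ⊆ {0, …, k-1}` and `f (x 0, …, x (k-1), 0, 0, …) = 0`; in particular (`k = 0`, `J = ∅`) all
  `x i + f (x 0, …, x (i-1), 0, 0, …)` with `i < m` and `f ∈ P` without constant term. -/
theorem result (F : Type) [Field F] [CharZero F] (κ : Type) [Finite κ] (c : F → κ)
    (Z : Finset F) (m : ℕ) (P : Finset (MvPolynomial ℕ F)) :
    ∃ (x : ℕ → F) (S : Set F), (∀ a ∈ S, a ≠ 0 ∧ a ∉ Z) ∧ (∀ a ∈ S, ∀ b ∈ S, c a = c b) ∧
      (∀ i < m, ∀ j < i, x i ≠ x j) ∧
      (∀ I ⊆ range m, I.Nonempty → ∏ i ∈ I, x i ∈ S ∧ ∑ i ∈ I, x i ∈ S) ∧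
      ∀ i < m, ∀ k ≤ i, ∀ J ⊆ range k, ∀ f ∈ P,
        MvPolynomial.eval (fun j => if j < k then x j else 0) f = 0 →
        (∏ j ∈ J, x j) * x i + MvPolynomial.eval (fun j => if j < i then x j else 0) f ∈ S :=
  Pool.Agent.Y930.SM.main c Z P m

end Pool.Agent.Results.MP_556fef_co.SeveralVariables
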